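import Mathlib
import Pool.Agent.TH841.NO.Fin

/-!
# The rank and the normal order of the 2-isogeny Selmer rank in one-parameter families

`W_t : y² = x (x - D(t) u₀(t)) (x - D(t) u₁(t))`, where `u₀`, `u₁` and `u₂ = u₀ - u₁` are
polynomials with integer coefficients, `u_k` being a constant times a product of `n_k` irreducible
polynomials and `D` a constant times a product of irreducible polynomials, all these irreducible
polynomials being pairwise different. If the numbers `n_k` are balanced then for almost all the `t`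
the rank of the 2-isogeny Selmer group of `W_t` (the bound for the rank obtained by descent with the
isogeny with kernel generated by `(0, 0)` and its dual) is `(κ + o(1)) log log |t|`, with an explicit
constant `κ`, and for each `ε` the rank of `W_t` is at most `R(ε)` for all but the proportion `ε` of
the `t`. So for almost all members of the family the bound from 2-isogeny descent is far from sharp.
For instance `κ = (n₀ + n₁) - n₂ / 2` if `D = 1` and there is no split multiplicative reduction at the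
factors of `u₂`.
-/

set_option autoImplicit false

namespace Pool.Agent.Results.MP_157626_nt.IsogenySelmerNormalOrder

open Finset Polynomial

/-- the curve `y² = x³ + a x² + b x` over `ℚ` -/
def E (a b : ℤ) : WeierstrassCurve ℚ := ⟨0, (a : ℚ), 0, (b : ℚ), 0⟩

/-- the Mordell-Weil rank -/
noncomputable def rank (W : WeierstrassCurve ℚ) : ℕ := Module.finrank ℤ W.toAffine.Point

/-- the quartic `N² = d M⁴ + a M² e² + (b / d) e⁴` has a nontrivial solution in `K` -/
def Quartic (K : Type) [Field K] (a b d : ℤ) : Prop := ∃ N M e : K, (M ≠ 0 ∨ e ≠ 0) ∧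
  N ^ 2 = (d : K) * M ^ 4 + (a : K) * M ^ 2 * e ^ 2 + ((b / d : ℤ) : K) * e ^ 4

/-- the squarefree `d ∣ b` for which the quartic is everywhere locally solvable: the Selmer group of
the isogeny from the curve `y² = x³ - 2 a x² + (a² - 4 b) x` to `y² = x³ + a x² + b x` -/
def Sel (a b : ℤ) : Set ℤ := {d | Squarefree d ∧ d ∣ b ∧ Quartic ℝ a b d ∧
  ∀ (p : ℕ) [Fact p.Prime], Quartic ℚ_[p] a b d}

/-- the base-two logarithm of the order of this Selmer group -/
noncomputable def dim (a b : ℤ) : ℕ := Nat.log 2 (Sel a b).ncard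

/-- the 2-isogeny Selmer rank of `y² = x³ + a x² + b x` -/
noncomputable def selRank (a b : ℤ) : ℤ := dim a b + dim (-2 * a) (a ^ 2 - 4 * b) - 2

/-- `u_k = a_k ∏ f_{k,i}` -/
noncomputable def u {n : Fin 3 → ℕ} (a : Fin 3 → ℤ) (f : ∀ k : Fin 3, Fin (n k) → ℤ[X])
    (k : Fin 3) : ℤ[X] := C (a k) * ∏ i, f k i

/-- `D = c ∏ g_i` -/
noncomputable def D {m : ℕ} (c : ℤ) (g : Fin m → ℤ[X]) : ℤ[X] := C c * ∏ i, g i

/-- `v` is a square modulo `f`, over the rationals -/
def SqMod (f v : ℤ[X]) : Prop := ∃ q : ℚ[X], f.map (Int.castRingHom ℚ) ∣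
  (q ^ 2 - v.map (Int.castRingHom ℚ))

/-- modulo a factor `f` of `u_k`, the curve `y² = x (x - D u₀) (x - D u₁)` has a node whose tangent
directions are the square roots of `v_k`; so the reduction at `f` is split if and only if `v_k` is a
square modulo `f` -/
noncomputable def v {n : Fin 3 → ℕ} {m : ℕ} (a : Fin 3 → ℤ) (f : ∀ k : Fin 3, Fin (n k) → ℤ[X])
    (c : ℤ) (g : Fin m → ℤ[X]) : Fin 3 → ℤ[X] :=
  ![-(D c g * u a f 1), -(D c g * u a f 0), D c g * u a f 0]

open Classical in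
/-- the number of the factors of `u_k` with split multiplicative reduction -/
noncomputable def s {n : Fin 3 → ℕ} {m : ℕ} (a : Fin 3 → ℤ) (f : ∀ k : Fin 3, Fin (n k) → ℤ[X])
    (c : ℤ) (g : Fin m → ℤ[X]) (k : Fin 3) : ℕ :=
  (univ.filter (fun i => SqMod (f k i) (v a f c g k))).card

open Classical in
/-- the constant `κ = n₀ + n₁ - (n₂ + s₂) / 2 + q / 2`, `q` being the number of the `g_i` modulo which
`u₀ u₁` is not a square -/
noncomputable def κ {n : Fin 3 → ℕ} {m : ℕ} (a : Fin 3 → ℤ) (f : ∀ k : Fin 3, Fin (n k) → ℤ[X])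
    (c : ℤ) (g : Fin m → ℤ[X]) : ℝ :=
  (n 0 : ℝ) + n 1 - ((n 2 : ℝ) + (s a f c g 2 : ℝ)) / 2 +
    ((univ.filter (fun i => ¬ SqMod (g i) (u a f 0 * u a f 1))).card : ℝ) / 2

/-- For `A = D(t) u₀(t)`, `B = D(t) u₁(t)`: the curve `y² = x (x - A) (x - B)` is nonsingular, its rank
is at most `R`, the Selmer group of the dual isogeny has dimension at most `R`, and the 2-isogeny
Selmer rank differs from `κ log log M` by at most `δ log log M`. -/
def Good {n : Fin 3 → ℕ} {m : ℕ} (a : Fin 3 → ℤ) (f : ∀ k : Fin 3, Fin (n k) → ℤ[X])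
    (c : ℤ) (g : Fin m → ℤ[X]) (δ : ℝ) (R M : ℕ) (t : ℤ) : Prop :=
  ∀ A B : ℤ, A = (D c g * u a f 0).eval t → B = (D c g * u a f 1).eval t →
    A ≠ 0 ∧ B ≠ 0 ∧ A ≠ B ∧ rank (E (-(A + B)) (A * B)) ≤ R ∧
      dim (-2 * -(A + B)) ((-(A + B)) ^ 2 - 4 * (A * B)) ≤ R ∧
      |(selRank (-(A + B)) (A * B) : ℝ) - κ a f c g * Real.log (Real.log M)| ≤
        δ * Real.log (Real.log M)

open Classical in
/-- **Theorem.** Let `u_k = a_k ∏_{i < n_k} f_{k,i}`, `k = 0, 1, 2`, be polynomials with integer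
coefficients with `u₀ - u₁ = u₂` and `D = c ∏_{i < m} g_i`, where `a_k ≠ 0`, `c ≠ 0` and the
`n₀ + n₁ + n₂ + m` polynomials `f_{k,i}`, `g_i` are irreducible of positive degree and pairwise
non-associated. Assume that `2 n_k < n₀ + n₁ + n₂` for `k = 0, 1, 2`, or
`2 n_k + s_k ≤ n₀ + n₁ + n₂` for `k = 0, 1, 2`. For all `δ, ε > 0` and `L` there are `R` and `M₀` such
that for all `M ≥ M₀` and `|N| ≤ M ^ L` all but `ε M` of the integers `t` with `N < t ≤ N + M` are
good: the rank of `W_t : y² = x (x - D(t) u₀(t)) (x - D(t) u₁(t))` is at most `R` and its 2-isogeny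
Selmer rank is between `(κ - δ) log log M` and `(κ + δ) log log M`. -/
theorem result {n : Fin 3 → ℕ} {m : ℕ} (a : Fin 3 → ℤ) (f : ∀ k : Fin 3, Fin (n k) → ℤ[X])
    (c : ℤ) (g : Fin m → ℤ[X]) (ha : ∀ k, a k ≠ 0) (hc : c ≠ 0)
    (hf : ∀ k i, Irreducible (f k i) ∧ 0 < (f k i).natDegree)
    (hg : ∀ i, Irreducible (g i) ∧ 0 < (g i).natDegree)
    (hff : ∀ k i l j, (⟨k, i⟩ : Σ k : Fin 3, Fin (n k)) ≠ ⟨l, j⟩ → ¬ Associated (f k i) (f l j))
    (hgg : ∀ i j, i ≠ j → ¬ Associated (g i) (g j))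
    (hfg : ∀ k i j, ¬ Associated (f k i) (g j))
    (hu : u a f 0 - u a f 1 = u a f 2)
    (hn : (∀ k, 2 * n k < n 0 + n 1 + n 2) ∨ ∀ k, 2 * n k + s a f c g k ≤ n 0 + n 1 + n 2)
    (δ ε : ℝ) (L : ℕ) (hδ : 0 < δ) (hε : 0 < ε) :
    ∃ R M₀ : ℕ, ∀ (N : ℤ) (M : ℕ), M₀ ≤ M → |N| ≤ (M : ℤ) ^ L →
      (((Ioc N (N + (M : ℤ))).filter (fun t => ¬ Good a f c g δ R M t)).card : ℝ) ≤ ε * M := by
  have hirr : Pool.Agent.TH841.PT.Irr (Pool.Agent.TH841.TR.allf g f) := by
    refine ⟨?_, ?_, ?_⟩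
    · rintro (x | i)
      · exact (hf x.1 x.2).1
      · exact (hg i).1
    · rintro (x | i)
      · exact (hf x.1 x.2).2
      · exact (hg i).2
    · rintro (x | i) (y | j) hxy
      · exact hff x.1 x.2 y.1 y.2 fun h => hxy (congrArg Sum.inl h)
      · exact hfg x.1 x.2 j
      · exact fun h => hfg y.1 y.2 i h.symm
      · exact hgg i j fun h => hxy (congrArg Sum.inr h)
  have hB : (∀ k, 2 * n k < n 0 + n 1 + n 2) ∨
      Pool.Agent.TH841.TR.Bal (Pool.Agent.TH841.LS.DG c g) a f :=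
    hn.imp id fun hs => Pool.Agent.TH841.TR.bal_of (v := v a f c g) rfl rfl rfl hs
  exact Pool.Agent.TH841.NO.final a f c g ha hc hirr hu hB δ ε L hδ hε

end Pool.Agent.Results.MP_157626_nt.IsogenySelmerNormalOrder
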