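import Mathlib
import Pool.Agent.TH841.PT.Fin2

/-!
# All the moments of the ranks of the twists by the values of a polynomial at prime arguments

`E : y² = x³ + A x + B` is an elliptic curve with three integer roots, `D` an arbitrary nonzero
polynomial with integer coefficients, of any degree, and `G₁, ..., G_r` pairwise different
irreducible polynomials. For all `s` and `k` the sum of `(2 ^ rank * #Ш[2 ^ k] ^ (1 / k)) ^ s` over
the twists of `E` by `D(t)`, where `t` runs over the integers of `(N, N + M]` for which all the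
`|G_i(t)|` are primes, is at most `C M / (log M) ^ r`, uniformly for `|N| ≤ M ^ L`. For `r = 1` and
`G₁ = t` this bounds all the moments over the twists by `D(p)`, `p` a prime.
-/

set_option autoImplicit false

namespace Pool.Agent.Results.MP_157626_nt.PrimeArgumentTwists

open Finset Polynomial

open Pool.Agent.TH841.SH.D (Sha ShaTor HasDiv rk)

/-- the quadratic twist `y² = x³ + d² A x + d³ B` of `y² = x³ + A x + B` over `ℚ` by `d` -/
def Tw (A B d : ℤ) : WeierstrassCurve ℚ := ⟨0, 0, 0, ((d ^ 2 * A : ℤ) : ℚ), ((d ^ 3 * B : ℤ) : ℚ)⟩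

open Classical in
/-- the integers `t` with `N < t ≤ N + M` and `D(t) ≠ 0` for which all the `|G_i(t)|` are primes -/
noncomputable def Par {r : ℕ} (D : ℤ[X]) (G : Fin r → ℤ[X]) (N : ℤ) (M : ℕ) : Finset ℤ :=
  (Ioc N (N + M)).filter (fun t => D.eval t ≠ 0 ∧ ∀ i, ((G i).eval t).natAbs.Prime)

open Classical in
lemma Par_eq {r : ℕ} (D : ℤ[X]) (G : Fin r → ℤ[X]) (N : ℤ) (M : ℕ) : Par D G N M =
    (Ioc N (N + M)).filter (fun t => D.eval t ≠ 0 ∧ Pool.Agent.TH841.PT.AllPr G t) := by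
  unfold Par Pool.Agent.TH841.PT.AllPr
  congr

open Classical in
/-- **Theorem.** Let `y² = (x - e₁) (x - e₂) (x - e₃) = x³ + A x + B` be an elliptic curve with
integers `e₁`, `e₂`, `e₃`, let `D ≠ 0` be a polynomial with integer coefficients and let
`G₁, ..., G_r` be irreducible polynomials of positive degree with integer coefficients, pairwise
non-associated. Let `W_t` be the quadratic twist of the curve by `D(t)`. For all `s` and `L` there is
`C` such that for all integers `M ≥ 2` and `|N| ≤ M ^ L` and the `t` with `N < t ≤ N + M`,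
`D(t) ≠ 0`, for which all the `|G_i(t)|` are primes: the groups `Ш(W_t)[2 ^ k]` are finite, the sum
of `(2 ^ rank * #Ш(W_t)[2 ^ k] ^ (1 / k)) ^ s` is at most `C M / (log M) ^ r` for all `k ≥ 1`, and at
most `C M / ((log M) ^ r 2 ^ (s (n + q)))` of these `t` have a twist `W_t` of rank at least `n` with a
subgroup `(ℚ₂ / ℤ₂) ^ q` in the Tate-Shafarevich group. -/
theorem result (A B e₁ e₂ e₃ : ℤ) (hE : 4 * A ^ 3 + 27 * B ^ 2 ≠ 0)
    (he : ∀ x : ℤ, x ^ 3 + A * x + B = (x - e₁) * (x - e₂) * (x - e₃))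
    (D : ℤ[X]) (hD : D ≠ 0) (r : ℕ) (G : Fin r → ℤ[X])
    (hG : ∀ i, Irreducible (G i) ∧ 0 < (G i).natDegree)
    (hG' : ∀ i j, i ≠ j → ¬ Associated (G i) (G j)) (s L : ℕ) :
    ∃ C : ℝ, ∀ (N : ℤ) (M : ℕ), 2 ≤ M → |N| ≤ (M : ℤ) ^ L →
      (∀ t ∈ Par D G N M, ∀ k : ℕ, Finite (ShaTor (Tw A B (D.eval t)) (2 ^ k))) ∧
      (∀ k : ℕ, 1 ≤ k → ∑ t ∈ Par D G N M, ((2 : ℝ) ^ rk (Tw A B (D.eval t)) *
        (Nat.card (ShaTor (Tw A B (D.eval t)) (2 ^ k)) : ℝ) ^ ((1 : ℝ) / k)) ^ s ≤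
          C * (M / (Real.log M) ^ r)) ∧
      ∀ n q : ℕ, (((Par D G N M).filter (fun t => n ≤ rk (Tw A B (D.eval t)) ∧
        HasDiv (Tw A B (D.eval t)) q)).card : ℝ) ≤
          C * (M / (Real.log M) ^ r) / 2 ^ (s * (n + q)) := by
  have hirr : Pool.Agent.TH841.PT.Irr G :=
    ⟨fun i => (hG i).1, fun i => (hG i).2, fun i j hij => hG' i j hij⟩
  obtain ⟨C, hC⟩ := Pool.Agent.TH841.PT.sha_prime Pool.Agent.TH841.PT.avh hirr hE he D hD s L
  refine ⟨C, fun N M hM hN => ?_⟩
  have h := hC N M hM hN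
  rw [← Par_eq] at h
  exact h

end Pool.Agent.Results.MP_157626_nt.PrimeArgumentTwists
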