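import Mathlib
import Pool.Agent.TH344.BF.Main
import Pool.Agent.TH344.SG.Cor
import Pool.Agent.TH344.DT.Tor

/-!
# The tails of the ranks of all the rational fibres of an elliptic surface with full 2-torsion

Let `n ≥ 2` be even, let `l k i` (`k = 0, 1, 2`, `i = 1, ..., n`) be pairwise non-proportional linear
forms in `u, v` with integer coefficients, let `m k i` be odd, and let
`F_k = a_k ∏_i (l k i) ^ (m k i)` be binary forms with `F_0 - F_1 = F_2`. The curves
`E : y² = x (x - F_0 (u, v)) (x - F_1 (u, v))` are the fibres at the rational points `t = u / v` of an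
elliptic surface over the projective line with full `2`-torsion, ordered by the height of `t`. There
is one set of pairs `(u, v)` of density zero such that over all the other pairs all the moments of
`(2 ^ j) ^ rank * #Ш[2 ^ j]` are bounded, for all `j`. So the upper density of the fibres with
`rank + corank Ш[2 ^ ∞] ≥ r` decays faster than any exponential `A ^ (-r)`.
-/

set_option autoImplicit false

namespace Pool.Agent.Results.MP_157626_nt.RationalFibreTails

open Finset Filter Topology Pool.Agent.TH344.SH Pool.Agent.TH344.SG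

/-- the curve `y² = x (x - A) (x - B)` over `ℚ` -/
def E (A B : ℤ) : WeierstrassCurve ℚ := ⟨0, -((A : ℚ) + B), 0, (A : ℚ) * B, 0⟩

/-- the value at `(u, v)` of the binary form `F_k = a_k ∏_i (l k i) ^ (m k i)`, where
`l (k, i) = (α, β)` stands for the linear form `α u + β v` -/
def F {n : ℕ} (l : Fin 3 × Fin n → ℤ × ℤ) (m : Fin 3 × Fin n → ℕ) (a : Fin 3 → ℤ) (k : Fin 3)
    (u v : ℤ) : ℤ :=
  a k * ∏ i : Fin n, ((l (k, i)).1 * u + (l (k, i)).2 * v) ^ m (k, i)

/-- the fibre at `(u, v)` -/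
def fib {n : ℕ} (l : Fin 3 × Fin n → ℤ × ℤ) (m : Fin 3 × Fin n → ℕ) (a : Fin 3 → ℤ)
    (t : ℤ × ℤ) : WeierstrassCurve ℚ := E (F l m a 0 t.1 t.2) (F l m a 1 t.1 t.2)

/-- the coprime pairs `(u, v)` of integers with `|u|, |v| ≤ X` for which the fibre is an elliptic
curve -/
def Par {n : ℕ} (l : Fin 3 × Fin n → ℤ × ℤ) (m : Fin 3 × Fin n → ℕ) (a : Fin 3 → ℤ)
    (X : ℕ) : Set (ℤ × ℤ) :=
  {t | |t.1| ≤ X ∧ |t.2| ≤ X ∧ IsCoprime t.1 t.2 ∧ ∀ k, F l m a k t.1 t.2 ≠ 0}

open scoped Classical in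
/-- the Mordell-Weil rank -/
noncomputable def rank (W : WeierstrassCurve ℚ) : ℕ := Module.finrank ℤ W.toAffine.Point

/-- the number of the elements of `Ш(W / ℚ)` killed by `n` -/
noncomputable def sha (n : ℕ) (W : WeierstrassCurve ℚ) : ℕ := Nat.card (ShaTorsion W n)

open scoped Classical in
/-- The corank of the 2-primary part of `Ш(W / ℚ)`: the largest `t` such that `(ℤ / 2 ^ n) ^ t` embeds
in `Ш(W / ℚ)` for all `n`. -/
noncomputable def corank (W : WeierstrassCurve ℚ) : ℕ := corank2 (Sha W)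

/-- the proportion of the pairs of `S` among the pairs of `Par` -/
noncomputable def proportion {n : ℕ} (l : Fin 3 × Fin n → ℤ × ℤ) (m : Fin 3 × Fin n → ℕ)
    (a : Fin 3 → ℤ) (S : Set (ℤ × ℤ)) (X : ℕ) : ℝ :=
  ((Par l m a X ∩ S).ncard : ℝ) / (Par l m a X).ncard

/-- the upper density of a set of pairs -/
noncomputable def upperDensity {n : ℕ} (l : Fin 3 × Fin n → ℤ × ℤ) (m : Fin 3 × Fin n → ℕ)
    (a : Fin 3 → ℤ) (S : Set (ℤ × ℤ)) : ℝ := limsup (proportion l m a S) atTop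

section

variable {n : ℕ} (l : Fin 3 × Fin n → ℤ × ℤ) (m : Fin 3 × Fin n → ℕ) (a : Fin 3 → ℤ)
  (hn0 : 0 < n) (hn : Even n) (hm : ∀ j, Odd (m j)) (ha : ∀ k, a k ≠ 0)
  (hl : ∀ i j, i ≠ j → (l i).1 * (l j).2 ≠ (l j).1 * (l i).2)
  (hF : ∀ u v : ℤ, F l m a 0 u v - F l m a 1 u v = F l m a 2 u v)

/-- the family -/
def fam : Pool.Agent.TH344.BF.Fam n := ⟨l, m, a, hn0, hn, hm, ha, hl, hF⟩

lemma Par_eq (X : ℕ) : Par l m a X =
    (Pool.Agent.TH344.BF.Fb (fam l m a hn0 hn hm ha hl hF) X : Set (ℤ × ℤ)) := by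
  ext t
  unfold Par Pool.Agent.TH344.BF.Fb
  rw [Set.mem_ofPred_eq, mem_coe, mem_filter, Pool.Agent.W307.RT.mem_Box]
  constructor
  · rintro ⟨h1, h2, h3, h4⟩
    rw [abs_le] at h1 h2
    exact ⟨⟨by omega, by omega⟩, h3, h4⟩
  · rintro ⟨⟨h1, h2⟩, h3, h4⟩
    exact ⟨by rw [abs_le]; omega, by rw [abs_le]; omega, h3, h4⟩

include hn0 hn hm ha hl hF in
/-- one fibre -/
lemma fibre {X : ℕ} {t : ℤ × ℤ}
    (ht : t ∈ Pool.Agent.TH344.BF.Fb (fam l m a hn0 hn hm ha hl hF) X) (j : ℕ) :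
    Finite (ShaTorsion (fib l m a t) (2 ^ j)) ∧
      (2 ^ j) ^ rank (fib l m a t) * sha (2 ^ j) (fib l m a t) ≤
        (Pool.Agent.W307.SE.Sel (F l m a 0 t.1 t.2) (F l m a 1 t.1 t.2)).ncard ^ j ∧
      2 ^ (rank (fib l m a t) + corank (fib l m a t)) ≤
        (Pool.Agent.W307.SE.Sel (F l m a 0 t.1 t.2) (F l m a 1 t.1 t.2)).ncard := by
  classical
  have h0 : ∀ k, F l m a k t.1 t.2 ≠ 0 := by
    unfold Pool.Agent.TH344.BF.Fb at ht
    exact (mem_filter.1 ht).2.2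
  have hne : F l m a 0 t.1 t.2 ≠ F l m a 1 t.1 t.2 := by
    intro h
    apply h0 2
    rw [← hF, h, sub_self]
  obtain ⟨h4, h5⟩ := Pool.Agent.TH344.SG.sha_sel _ _ (h0 0) (h0 1) hne (fib l m a t) rfl
    (Pool.Agent.W701.FK.sel_fin' (h0 0) (h0 1) hne)
  obtain ⟨h6, h7⟩ := Pool.Agent.TH344.DT.tors_pow (G := Sha (fib l m a t)) h4 j
  have h5' : 2 ^ rank (fib l m a t) * sha 2 (fib l m a t) ≤
      (Pool.Agent.W307.SE.Sel (F l m a 0 t.1 t.2) (F l m a 1 t.1 t.2)).ncard := h5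
  refine ⟨h6, ?_, ?_⟩
  · calc (2 ^ j) ^ rank (fib l m a t) * sha (2 ^ j) (fib l m a t) ≤
        (2 ^ j) ^ rank (fib l m a t) * sha 2 (fib l m a t) ^ j := Nat.mul_le_mul_left _ h7
      _ = (2 ^ rank (fib l m a t) * sha 2 (fib l m a t)) ^ j := by
        rw [mul_pow, ← pow_mul, ← pow_mul, mul_comm j]
      _ ≤ _ := Nat.pow_le_pow_left h5' j
  · have h8 := corank2_le (G := Sha (fib l m a t)) (n := 1) le_rfl (by rw [pow_one]; exact h4)
    rw [pow_one] at h8
    rw [pow_add]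
    exact (Nat.mul_le_mul_left _ h8).trans h5'

end

/-- **Theorem.** Let `n ≥ 2` be even, `l` pairwise non-proportional linear forms, `m` odd exponents,
and `F_0 - F_1 = F_2`. For some `c > 0` there are at least `c X²` pairs in `Par X` for all large
`X`; the groups `Ш[2 ^ j]` of the fibres are finite. There is a set `Z` of density zero such that for
all `j` and `k` the sum of `((2 ^ j) ^ rank * #Ш[2 ^ j]) ^ k` over the pairs of `Par X` outside of
`Z` is at most `C_{j,k}` times the number of the pairs of `Par X`. For every real number `A`, the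
upper density of the pairs for which the fibre has `rank + corank ≥ r`, times `A ^ r`, tends to zero
for `r → ∞`. -/
theorem result (n : ℕ) (hn0 : 0 < n) (hn : Even n) (l : Fin 3 × Fin n → ℤ × ℤ)
    (m : Fin 3 × Fin n → ℕ) (hm : ∀ j, Odd (m j)) (a : Fin 3 → ℤ) (ha : ∀ k, a k ≠ 0)
    (hl : ∀ i j, i ≠ j → (l i).1 * (l j).2 ≠ (l j).1 * (l i).2)
    (hF : ∀ u v : ℤ, F l m a 0 u v - F l m a 1 u v = F l m a 2 u v) :
    (∃ c : ℝ, 0 < c ∧ ∀ᶠ X : ℕ in atTop, c * (X : ℝ) ^ 2 ≤ ((Par l m a X).ncard : ℝ)) ∧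
    (∀ X : ℕ, (Par l m a X).Finite ∧
      ∀ t ∈ Par l m a X, ∀ j : ℕ, Finite (ShaTorsion (fib l m a t) (2 ^ j))) ∧
    (∃ Z : Set (ℤ × ℤ), Tendsto (proportion l m a Z) atTop (𝓝 0) ∧ ∀ j k : ℕ, ∃ C : ℝ, ∀ X : ℕ,
      ∑ᶠ t ∈ Par l m a X \ Z, (((2 ^ j) ^ rank (fib l m a t) * sha (2 ^ j) (fib l m a t) : ℕ) : ℝ)
        ^ k ≤ C * (Par l m a X).ncard) ∧
    ∀ A : ℝ, Tendsto (fun r : ℕ => A ^ r *
      upperDensity l m a {t | r ≤ rank (fib l m a t) + corank (fib l m a t)}) atTop (𝓝 0) := by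
  classical
  set Φ := fam l m a hn0 hn hm ha hl hF with hΦ
  have hPar : ∀ X, Par l m a X = (Pool.Agent.TH344.BF.Fb Φ X : Set (ℤ × ℤ)) :=
    Par_eq l m a hn0 hn hm ha hl hF
  have hcard : ∀ X, (Par l m a X).ncard = (Pool.Agent.TH344.BF.Fb Φ X).card := by
    intro X
    rw [hPar, Set.ncard_coe_finset]
  have hpr : ∀ S, proportion l m a S = Pool.Agent.TH344.GT.pr (Pool.Agent.TH344.BF.Fb Φ) S := by
    intro S
    funext X
    unfold proportion Pool.Agent.TH344.GT.pr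
    rw [hPar, Set.ncard_coe_finset]
  have hud : ∀ S, upperDensity l m a S =
      Pool.Agent.TH344.GT.ud (Pool.Agent.TH344.BF.Fb Φ) S := by
    intro S
    unfold upperDensity Pool.Agent.TH344.GT.ud
    rw [hpr]
  have hexc := Pool.Agent.TH344.BF.excb Φ
  refine ⟨?_, fun X => ?_, ?_, fun A => ?_⟩
  · obtain ⟨X0, hX0⟩ := Pool.Agent.TH344.GT.cop_box (fun j => (l j).1) (fun j => (l j).2)
      (Pool.Agent.TH344.BF.not_both Φ)
    refine ⟨1 / 8, by norm_num, ?_⟩
    filter_upwards [eventually_ge_atTop X0] with X hX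
    rw [hcard]
    have h1 := hX0 X hX
    have h2 : Pool.Agent.TH344.BF.Fb Φ X = (Pool.Agent.W307.RT.Box X).filter (fun t =>
        IsCoprime t.1 t.2 ∧ ∀ j, (l j).1 * t.1 + (l j).2 * t.2 ≠ 0) := by
      unfold Pool.Agent.TH344.BF.Fb
      apply filter_congr
      intro t _
      rw [Pool.Agent.TH344.BF.bf_ne]
      exact Iff.rfl
    rw [h2]
    linarith
  · rw [hPar]
    exact ⟨finite_toSet _, fun t ht j =>
      (fibre l m a hn0 hn hm ha hl hF (mem_coe.1 ht) j).1⟩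
  · obtain ⟨Z, hZ1, hZ2⟩ := hexc
    refine ⟨Z, ?_, fun j k => ?_⟩
    · rw [hpr]
      exact Pool.Agent.TH344.GT.tendsto_of_eps _ hZ1
    · obtain ⟨C, hC⟩ := hZ2 (j * k)
      refine ⟨C, fun X => ?_⟩
      have h1 : Par l m a X \ Z =
          (((Pool.Agent.TH344.BF.Fb Φ X).filter (fun c => c ∉ Z) : Finset (ℤ × ℤ)) :
            Set (ℤ × ℤ)) := by
        rw [hPar]
        ext c
        simp
      rw [h1, finsum_mem_coe_finset, hcard]
      refine le_trans ?_ (hC X)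
      refine le_trans (sum_le_sum (g := fun c : ℤ × ℤ =>
        ((Pool.Agent.W307.SE.Sel (F l m a 0 c.1 c.2) (F l m a 1 c.1 c.2)).ncard : ℝ) ^ (j * k))
        fun c hc => ?_) (le_of_eq ?_)
      · rw [mem_filter] at hc
        have h4 := (fibre l m a hn0 hn hm ha hl hF hc.1 j).2.1
        rw [pow_mul]
        exact pow_le_pow_left₀ (Nat.cast_nonneg _) (by exact_mod_cast h4) k
      · refine sum_congr ?_ fun c _ => rfl
        ext c
        simp
  · simp only [hud]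
    apply Pool.Agent.TH344.GT.tail _ hexc 1
    intro r X t ht hr
    rw [pow_one]
    exact (Nat.pow_le_pow_right (by norm_num) hr).trans
      (fibre l m a hn0 hn hm ha hl hF ht 0).2.2

end Pool.Agent.Results.MP_157626_nt.RationalFibreTails
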