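import Mathlib
import Pool.Agent.TH841.PM.Fin2

/-!
# All the moments and the tails of the rank in twisted pencils with full 2-torsion

`W_t : y² = x (x - D(t) u₀(t)) (x - D(t) u₁(t))`, where `u₀`, `u₁` and `u₂ = u₀ - u₁` are
polynomials with integer coefficients, `u_k` being a constant times a product of `n_k` irreducible
polynomials, these `n₀ + n₁ + n₂` irreducible polynomials being pairwise different, and `D` is any
nonzero polynomial not divisible by one of them. If `n_k < n_i + n_j` for `{i, j, k} = {0, 1, 2}`,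
there is a set `Z` of integers `t` of density zero (uniformly in short intervals) such that outside
of `Z` ALL the moments of `2 ^ rank * #Ш[2 ^ j] ^ (1 / j)` are bounded, uniformly over all intervals
`(N, N + M]` with `|N| ≤ M ^ L`. So the upper density of the `t` with rank at least `r` decays faster
than any exponential function of `r`.
-/

set_option autoImplicit false

namespace Pool.Agent.Results.MP_157626_nt.TwistedPencilTails

open Finset Polynomial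

open Pool.Agent.TH841.SH.D (Sha ShaTor HasDiv rk)

/-- the curve `y² = x (x - A) (x - B)` over `ℚ` -/
def E (A B : ℤ) : WeierstrassCurve ℚ := ⟨0, -((A : ℚ) + B), 0, (A : ℚ) * B, 0⟩

/-- `u_k = a_k ∏ f_{k,i}` -/
noncomputable def u {n : Fin 3 → ℕ} (a : Fin 3 → ℤ) (f : ∀ k : Fin 3, Fin (n k) → ℤ[X])
    (k : Fin 3) : ℤ[X] := C (a k) * ∏ i, f k i

/-- the fibre at `t` -/
noncomputable def fib {n : Fin 3 → ℕ} (D : ℤ[X]) (a : Fin 3 → ℤ)
    (f : ∀ k : Fin 3, Fin (n k) → ℤ[X]) (t : ℤ) : WeierstrassCurve ℚ :=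
  E ((D * u a f 0).eval t) ((D * u a f 1).eval t)

open Classical in
/-- the integers `t` with `N < t ≤ N + M` outside of `Z` -/
noncomputable def Off (Z : Set ℤ) (N : ℤ) (M : ℕ) : Finset ℤ :=
  (Ioc N (N + M)).filter (fun t => t ∉ Z)

open Classical in
/-- the integers `t` with `N < t ≤ N + M` in `Z` -/
noncomputable def On (Z : Set ℤ) (N : ℤ) (M : ℕ) : Finset ℤ :=
  (Ioc N (N + M)).filter (fun t => t ∈ Z)

/-- `Z` has density zero, uniformly in the intervals `(N, N + M]` with `|N| ≤ M ^ L` -/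
def DensityZero (Z : Set ℤ) : Prop := ∀ (L : ℕ) (ε : ℝ), 0 < ε → ∃ M0 : ℕ, ∀ (N : ℤ) (M : ℕ),
  M0 ≤ M → |N| ≤ (M : ℤ) ^ L → ((On Z N M).card : ℝ) ≤ ε * M

/-- the integers `t` for which the fibre is not an elliptic curve, or `rank + q ≥ r` for some `q` such
that `(ℚ₂ / ℤ₂) ^ q` is a subgroup of `Ш` -/
def High {n : Fin 3 → ℕ} (D : ℤ[X]) (a : Fin 3 → ℤ) (f : ∀ k : Fin 3, Fin (n k) → ℤ[X])
    (r : ℕ) : Set ℤ :=
  {t | (∃ k, (D * u a f k).eval t = 0) ∨ ∃ q : ℕ, HasDiv (fib D a f t) q ∧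
    r ≤ rk (fib D a f t) + q}

lemma hasDiv_mono {W : WeierstrassCurve ℚ} {p q : ℕ} (hpq : p ≤ q) (h : HasDiv W q) :
    HasDiv W p := by
  obtain ⟨f, hf⟩ := h
  let e : (Fin p → Pool.Agent.TH841.SH.D.Pruf) →+ (Fin q → Pool.Agent.TH841.SH.D.Pruf) :=
    { toFun := fun g i => if h : i.1 < p then g ⟨i.1, h⟩ else 0
      map_zero' := by
        funext i
        by_cases h : i.1 < p
        · simp only [dif_pos h, Pi.zero_apply]
        · simp only [dif_neg h, Pi.zero_apply]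
      map_add' := by
        intro g g'
        funext i
        by_cases h : i.1 < p
        · simp only [dif_pos h, Pi.add_apply]
        · simp only [dif_neg h, Pi.add_apply, add_zero] }
  refine ⟨f.comp e, hf.comp ?_⟩
  intro g g' hg
  funext i
  have h1 := congrFun hg ⟨i.1, i.2.trans_le hpq⟩
  have h2 : ∀ g : Fin p → Pool.Agent.TH841.SH.D.Pruf, e g ⟨i.1, i.2.trans_le hpq⟩ = g i := by
    intro g
    change (if h : i.1 < p then g ⟨i.1, h⟩ else 0) = g i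
    rw [dif_pos i.2]
  rw [h2, h2] at h1
  exact h1

open Classical in
lemma main (n : Fin 3 → ℕ) (a : Fin 3 → ℤ) (f : ∀ k : Fin 3, Fin (n k) → ℤ[X]) (D : ℤ[X])
    (ha : ∀ k, a k ≠ 0) (hf : ∀ k i, Irreducible (f k i) ∧ 0 < (f k i).natDegree)
    (hf' : ∀ k i l j, (⟨k, i⟩ : Σ k : Fin 3, Fin (n k)) ≠ ⟨l, j⟩ → ¬ Associated (f k i) (f l j))
    (hu : u a f 0 - u a f 1 = u a f 2) (hD : D ≠ 0) (hDf : ∀ k i, ¬ f k i ∣ D)
    (hn : ∀ k, 2 * n k < n 0 + n 1 + n 2) :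
    (∃ Z : Set ℤ, DensityZero Z ∧ (∀ t, t ∉ Z → ∀ k, (D * u a f k).eval t ≠ 0) ∧
      ∀ k L : ℕ, ∃ C : ℝ, ∀ (N : ℤ) (M : ℕ), 1 ≤ M → |N| ≤ (M : ℤ) ^ L →
        (∀ t ∈ Off Z N M, ∀ j : ℕ, Finite (ShaTor (fib D a f t) (2 ^ j))) ∧
        (∀ j : ℕ, 1 ≤ j → ∑ t ∈ Off Z N M, ((2 : ℝ) ^ rk (fib D a f t) *
          (Nat.card (ShaTor (fib D a f t) (2 ^ j)) : ℝ) ^ ((1 : ℝ) / j)) ^ k ≤ C * M) ∧
        ∀ r q : ℕ, (((Off Z N M).filter (fun t => r ≤ rk (fib D a f t) ∧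
          HasDiv (fib D a f t) q)).card : ℝ) ≤ C * M / 2 ^ (k * (r + q))) := by
  have hirr : Pool.Agent.TH841.PT.Irr (Pool.Agent.TH841.TR.fp f) :=
    ⟨fun x => (hf x.1 x.2).1, fun x => (hf x.1 x.2).2, fun x y hxy => hf' x.1 x.2 y.1 y.2 hxy⟩
  obtain ⟨Z, h1, h2, h3⟩ := Pool.Agent.TH841.PM.penZQ Pool.Agent.TH841.PM.tavz a f ha hirr hu D hD
    hDf hn
  refine ⟨Z, fun L ε hε => ?_, h2, fun k L => ?_⟩
  · obtain ⟨M0, hM0⟩ := h1 L ε hε
    exact ⟨M0, fun N M hM hN => hM0 N M hM hN⟩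
  · obtain ⟨C, hC⟩ := h3 k L
    exact ⟨C, fun N M hM hN => hC N M hM hN _ rfl⟩

lemma tail_real (A : ℝ) (C : ℝ) (ε : ℝ) (hε : 0 < ε) (k : ℕ) (hk : 4 * (|A| + 1) ≤ 2 ^ k) :
    ∃ r0 : ℕ, ∀ r : ℕ, r0 ≤ r → |A| ^ r * ((r + 1) * (|C| / 2 ^ (k * r))) ≤ ε := by
  have h1 : Filter.Tendsto (fun r : ℕ => |C| * ((r : ℝ) * (1 / 4 : ℝ) ^ r + (1 / 4 : ℝ) ^ r))
      Filter.atTop (nhds 0) := by
    have h2 := tendsto_self_mul_const_pow_of_lt_one (r := (1 / 4 : ℝ)) (by norm_num) (by norm_num)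
    have h3 := tendsto_pow_atTop_nhds_zero_of_lt_one (r := (1 / 4 : ℝ)) (by norm_num) (by norm_num)
    have h4 := (h2.add h3).const_mul |C|
    simpa using h4
  have h5 := (h1.eventually (ge_mem_nhds hε)).exists_forall_of_atTop
  obtain ⟨r0, hr0⟩ := h5
  refine ⟨r0, fun r hr => le_trans ?_ (hr0 r hr)⟩
  have hA : |A| ^ r ≤ (2 ^ k / 4) ^ r := by
    refine pow_le_pow_left₀ (abs_nonneg A) ?_ r
    linarith
  have h6 : (2 ^ k / 4 : ℝ) ^ r = 2 ^ (k * r) * (1 / 4) ^ r := by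
    rw [div_eq_mul_one_div, mul_pow, ← pow_mul]
  have h7 : (0 : ℝ) < 2 ^ (k * r) := by positivity
  calc |A| ^ r * ((r + 1) * (|C| / 2 ^ (k * r)))
      ≤ (2 ^ (k * r) * (1 / 4) ^ r) * ((r + 1) * (|C| / 2 ^ (k * r))) := by
        rw [← h6]
        exact mul_le_mul_of_nonneg_right hA (by positivity)
    _ = |C| * ((r : ℝ) * (1 / 4 : ℝ) ^ r + (1 / 4 : ℝ) ^ r) := by
        field_simp


open Classical in
/-- **Theorem.** Let `u_k = a_k ∏_{i < n_k} f_{k,i}`, `k = 0, 1, 2`, be polynomials with integer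
coefficients with `u₀ - u₁ = u₂`, where `a_k ≠ 0` and the `n₀ + n₁ + n₂` polynomials `f_{k,i}` are
irreducible of positive degree and pairwise non-associated, let `D ≠ 0` be a polynomial with integer
coefficients not divisible by any `f_{k,i}`, and assume `2 n_k < n₀ + n₁ + n₂` for `k = 0, 1, 2`.
There is a set `Z` of integers, of density zero uniformly in all the intervals `(N, N + M]` with
`|N| ≤ M ^ L`, containing the `t` for which `W_t : y² = x (x - D(t) u₀(t)) (x - D(t) u₁(t))` is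
singular, such that for all `k` and `L` there is `C` with: for all `M ≥ 1` and `|N| ≤ M ^ L`, for the
`t ∉ Z` with `N < t ≤ N + M` all the groups `Ш(W_t)[2 ^ j]` are finite, the sum of
`(2 ^ rank * #Ш(W_t)[2 ^ j] ^ (1 / j)) ^ k` over these `t` is at most `C M` for all `j ≥ 1`, and for
at most `C M / 2 ^ (k (r + q))` of these `t` the curve `W_t` has rank at least `r` and a subgroup
`(ℚ₂ / ℤ₂) ^ q` in the Tate-Shafarevich group. Moreover for every `A` the proportion of the `t` in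
`(N, N + M]` with `rank + corank Ш[2 ^ ∞] ≥ r` is at most `ε A ^ (-r)` for all large `r` and all
`M ≥ M0(r)`. -/
theorem result (n : Fin 3 → ℕ) (a : Fin 3 → ℤ) (f : ∀ k : Fin 3, Fin (n k) → ℤ[X]) (D : ℤ[X])
    (ha : ∀ k, a k ≠ 0) (hf : ∀ k i, Irreducible (f k i) ∧ 0 < (f k i).natDegree)
    (hf' : ∀ k i l j, (⟨k, i⟩ : Σ k : Fin 3, Fin (n k)) ≠ ⟨l, j⟩ → ¬ Associated (f k i) (f l j))
    (hu : u a f 0 - u a f 1 = u a f 2) (hD : D ≠ 0) (hDf : ∀ k i, ¬ f k i ∣ D)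
    (hn : ∀ k, 2 * n k < n 0 + n 1 + n 2) :
    (∃ Z : Set ℤ, DensityZero Z ∧ (∀ t, t ∉ Z → ∀ k, (D * u a f k).eval t ≠ 0) ∧
      ∀ k L : ℕ, ∃ C : ℝ, ∀ (N : ℤ) (M : ℕ), 1 ≤ M → |N| ≤ (M : ℤ) ^ L →
        (∀ t ∈ Off Z N M, ∀ j : ℕ, Finite (ShaTor (fib D a f t) (2 ^ j))) ∧
        (∀ j : ℕ, 1 ≤ j → ∑ t ∈ Off Z N M, ((2 : ℝ) ^ rk (fib D a f t) *
          (Nat.card (ShaTor (fib D a f t) (2 ^ j)) : ℝ) ^ ((1 : ℝ) / j)) ^ k ≤ C * M) ∧
        ∀ r q : ℕ, (((Off Z N M).filter (fun t => r ≤ rk (fib D a f t) ∧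
          HasDiv (fib D a f t) q)).card : ℝ) ≤ C * M / 2 ^ (k * (r + q))) ∧
    ∀ (A : ℝ) (L : ℕ) (ε : ℝ), 0 < ε → ∃ r0 : ℕ, ∀ r, r0 ≤ r → ∃ M0 : ℕ, ∀ (N : ℤ) (M : ℕ),
      M0 ≤ M → |N| ≤ (M : ℤ) ^ L → A ^ r * ((On (High D a f r) N M).card : ℝ) ≤ ε * M := by
  have hmain := main n a f D ha hf hf' hu hD hDf hn
  refine ⟨hmain, ?_⟩
  obtain ⟨Z, h1, h2, h3⟩ := hmain
  intro A L ε hε
  obtain ⟨k, hk⟩ : ∃ k : ℕ, 4 * (|A| + 1) ≤ (2 : ℝ) ^ k := by
    obtain ⟨k, hk⟩ := pow_unbounded_of_one_lt (4 * (|A| + 1)) (one_lt_two : (1 : ℝ) < 2)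
    exact ⟨k, hk.le⟩
  obtain ⟨C, hC⟩ := h3 k L
  obtain ⟨r0, hr0⟩ := tail_real A C (ε / 2) (by positivity) k hk
  refine ⟨r0, fun r hr => ?_⟩
  obtain ⟨M0, hM0⟩ := h1 L (ε / 2 / (|A| ^ r + 1)) (by positivity)
  refine ⟨M0 + 1, fun N M hM hN => ?_⟩
  obtain ⟨-, -, hCt⟩ := hC N M (by omega) hN
  have hZ := hM0 N M (by omega) hN
  have hM0' : (0 : ℝ) ≤ M := Nat.cast_nonneg M
  have hsub : On (High D a f r) N M ⊆ On Z N M ∪ (range (r + 1)).biUnion (fun q =>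
      (Off Z N M).filter (fun t => r - q ≤ rk (fib D a f t) ∧ HasDiv (fib D a f t) q)) := by
    intro t ht
    obtain ⟨ht1, ht2⟩ := mem_filter.1 ht
    rw [mem_union]
    by_cases htZ : t ∈ Z
    · exact Or.inl (mem_filter.2 ⟨ht1, htZ⟩)
    · right
      rcases ht2 with ⟨k, hk⟩ | ⟨q, hq1, hq2⟩
      · exact absurd hk (h2 t htZ k)
      · rw [mem_biUnion]
        refine ⟨min q r, mem_range.2 (by omega), mem_filter.2 ⟨mem_filter.2 ⟨ht1, htZ⟩, by omega,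
          hasDiv_mono (min_le_left _ _) hq1⟩⟩
  have hcard : ((On (High D a f r) N M).card : ℝ) ≤ ε / 2 / (|A| ^ r + 1) * M +
      (r + 1) * (|C| / 2 ^ (k * r)) * M := by
    have e1 := (card_le_card hsub).trans ((card_union_le _ _).trans
      (Nat.add_le_add_left card_biUnion_le _))
    have e2 : ((On (High D a f r) N M).card : ℝ) ≤ ((On Z N M).card : ℝ) +
        ∑ q ∈ range (r + 1), (((Off Z N M).filter (fun t => r - q ≤ rk (fib D a f t) ∧
          HasDiv (fib D a f t) q)).card : ℝ) := by exact_mod_cast e1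
    refine e2.trans (add_le_add hZ ?_)
    have e3 : ∀ q ∈ range (r + 1), (((Off Z N M).filter (fun t => r - q ≤ rk (fib D a f t) ∧
          HasDiv (fib D a f t) q)).card : ℝ) ≤ |C| * M / 2 ^ (k * r) := by
      intro q hq
      rw [mem_range] at hq
      have e4 := hCt (r - q) q
      rw [Nat.sub_add_cancel (by omega)] at e4
      refine e4.trans ?_
      exact div_le_div_of_nonneg_right (mul_le_mul_of_nonneg_right (le_abs_self C) hM0')
        (by positivity)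
    refine (sum_le_sum e3).trans (le_of_eq ?_)
    rw [sum_const, card_range, nsmul_eq_mul]
    push_cast
    ring
  have hA : A ^ r ≤ |A| ^ r := by
    rw [← abs_pow]
    exact le_abs_self _
  have hAr : (0 : ℝ) ≤ |A| ^ r := by positivity
  calc A ^ r * ((On (High D a f r) N M).card : ℝ)
      ≤ |A| ^ r * ((On (High D a f r) N M).card : ℝ) :=
        mul_le_mul_of_nonneg_right hA (Nat.cast_nonneg _)
    _ ≤ |A| ^ r * (ε / 2 / (|A| ^ r + 1) * M + (r + 1) * (|C| / 2 ^ (k * r)) * M) :=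
        mul_le_mul_of_nonneg_left hcard hAr
    _ = (|A| ^ r * (ε / 2 / (|A| ^ r + 1))) * M +
        (|A| ^ r * ((r + 1) * (|C| / 2 ^ (k * r)))) * M := by ring
    _ ≤ ε / 2 * M + ε / 2 * M := by
        refine add_le_add (mul_le_mul_of_nonneg_right ?_ hM0')
          (mul_le_mul_of_nonneg_right (hr0 r hr) hM0')
        rw [mul_div_assoc', div_le_iff₀ (by positivity)]
        nlinarith
    _ = ε * M := by ring

end Pool.Agent.Results.MP_157626_nt.TwistedPencilTails
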